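import Pool.Agent.helper41.HFE.SpecD

/-!
# Row SMO of project HFE (MP_3221a1_ag): irreducible curves of bidegree `(1, b)` are smooth
-/

set_option autoImplicit false

open Polynomial Module Pool.Agent.HFN

namespace Pool.Agent.HFE

noncomputable section

theorem SMO_one (g : AA) (z : ℂ × ℂ) (hg : Irreducible g) (h1 : dY g = 1) : ¬ Db z g := by
  rintro ⟨h0, -, hy⟩
  have hd : g.natDegree = 1 := h1
  have hform : g = C (g.coeff 1) * X + C (g.coeff 0) := Polynomial.eq_X_add_C_of_natDegree_le_one (le_of_eq hd)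
  set A := g.coeff 1 with hA
  set B := g.coeff 0 with hB
  have hDy : Dy g = C A := by
    rw [hform]
    unfold Dy
    simp
  rw [hDy, ev_C] at hy
  have hB0 : B.eval z.1 = 0 := by
    have h2 : ev z g = A.eval z.1 * z.2 + B.eval z.1 := by
      rw [hform, ev_add, ev_mul, ev_C, ev_C, ev_X]
    rw [h2, hy, zero_mul, zero_add] at h0
    exact h0
  obtain ⟨A', hA'⟩ := Polynomial.dvd_iff_isRoot.2 hy
  obtain ⟨B', hB'⟩ := Polynomial.dvd_iff_isRoot.2 hB0
  have hfac : g = C (X - C z.1) * (C A' * X + C B') := by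
    rw [hform, hA', hB', C_mul, C_mul]
    ring
  rcases hg.isUnit_or_isUnit hfac with hu | hu
  · rw [Polynomial.isUnit_C] at hu
    exact (Polynomial.irreducible_X_sub_C z.1).not_isUnit hu
  · have h3 : (C A' * X + C B' : AA).natDegree = 0 := Polynomial.natDegree_eq_zero_of_isUnit hu
    have h4 : g.natDegree ≤ 0 := by
      rw [hfac]
      refine (Polynomial.natDegree_mul_le).trans ?_
      rw [h3, Polynomial.natDegree_C]
    omega

/-- Row SMO. -/
theorem SMO : SMO_stmt := by
  intro g z hg h _ _ hdb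
  rcases h with h | h
  · refine SMO_one (sw g) z.swap ?_ (by rw [dY_sw]; exact h) ?_
    · exact (MulEquiv.irreducible_iff (sw : AA ≃ₐ[ℂ] AA)).2 hg
    · rw [Db_sw, Prod.swap_swap]
      exact hdb
  · exact SMO_one g z hg h hdb

end

end Pool.Agent.HFE
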